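import Pool.Agent.J4H13.LC.Jobs

/-!
# Job COUNT of project LC
-/

set_option autoImplicit false

namespace Pool.Agent.J4H63.LC

open Finset Pool.Agent.J4H13.LA

lemma ch2 (k : ℕ) : 2 * k.choose 2 = k * (k - 1) := by
  rw [Nat.choose_two_right]
  exact Nat.two_mul_div_two_of_even (Nat.even_mul_pred_self k)

lemma ch2q (k : ℕ) : (2 : ℚ) * (k.choose 2 : ℚ) = k * (k - 1) := by
  rcases k with _ | k
  · simp
  · have := ch2 (k + 1)
    rw [Nat.add_sub_cancel] at this
    have h : ((2 * (k + 1).choose 2 : ℕ) : ℚ) = (((k + 1) * k : ℕ) : ℚ) := by rw [this]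
    push_cast at h ⊢
    linarith

open scoped Classical in
/-- the weight of a block -/
noncomputable def w {n : ℕ} (Φc : Finset (Finset (Fin n))) (F : Finset (Fin n)) : ℚ :=
  if Even F.card then 1 else if F ∈ Φc then -((F.card : ℚ) - 1) / F.card
    else 3 * ((F.card : ℚ) - 1) / F.card

open scoped Classical in
/-- the integral weight of a block -/
noncomputable def w' {n : ℕ} (Φc : Finset (Finset (Fin n))) (F : Finset (Fin n)) : ℤ :=
  if Even F.card then 1 else if F ∈ Φc then -1 else 2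

open scoped Classical in
lemma w_eq {n : ℕ} (Φc : Finset (Finset (Fin n))) (F : Finset (Fin n)) (h2 : 2 ≤ F.card) :
    (8 : ℚ) * (((F.card + if F ∈ Φc then 1 else 0) / 2).choose 2 : ℕ) + F.card * w Φc F =
      F.card * (F.card - 1) := by
  unfold w
  have hr : (F.card : ℚ) ≠ 0 := by
    have : 0 < F.card := by omega
    positivity
  obtain ⟨k, hk⟩ := Nat.even_or_odd' F.card
  rcases hk with hk | hk
  · have he : Even F.card := ⟨k, by omega⟩
    rw [if_pos he]
    have h0 : (F.card + if F ∈ Φc then 1 else 0) / 2 = k := by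
      split_ifs <;> omega
    rw [h0, hk]
    have := ch2q k
    push_cast
    linear_combination 4 * this
  · have he : ¬ Even F.card := by
      rw [Nat.not_even_iff_odd]
      exact ⟨k, hk⟩
    rw [if_neg he]
    split_ifs with hc
    · have h0 : (F.card + 1) / 2 = k + 1 := by omega
      rw [h0, mul_div_cancel₀ _ hr, hk]
      have := ch2q (k + 1)
      push_cast at this ⊢
      linear_combination 4 * this
    · have h0 : (F.card + 0) / 2 = k := by omega
      rw [h0, mul_div_cancel₀ _ hr, hk]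
      have := ch2q k
      push_cast at this ⊢
      linear_combination 4 * this

lemma w'_le {n : ℕ} (Φc : Finset (Finset (Fin n))) (F : Finset (Fin n)) (h2 : 2 ≤ F.card) :
    (w' Φc F : ℚ) ≤ w Φc F := by
  classical
  unfold w w'
  have hr : (0 : ℚ) < F.card := by
    have : 0 < F.card := by omega
    positivity
  split_ifs with h1 h3
  · simp
  · rw [le_div_iff₀ hr]
    push_cast
    linarith
  · have h4 : 3 ≤ F.card := by
      rcases Nat.lt_or_ge F.card 3 with h | h
      · exfalso
        apply h1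
        have : F.card = 2 := by omega
        rw [this]
        exact even_two
      · exact h
    have h5 : (3 : ℚ) ≤ F.card := by exact_mod_cast h4
    rw [le_div_iff₀ hr]
    push_cast
    linarith

lemma w'_lt {n : ℕ} (Φc : Finset (Finset (Fin n))) (F : Finset (Fin n)) (h2 : 2 ≤ F.card)
    (h1 : ¬ Even F.card) (h3 : F ∈ Φc) : (w' Φc F : ℚ) < w Φc F := by
  classical
  unfold w w'
  have hr : (0 : ℚ) < F.card := by
    have : 0 < F.card := by omega
    positivity
  rw [if_neg h1, if_pos h3, if_neg h1, if_pos h3, lt_div_iff₀ hr]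
  push_cast
  linarith

theorem t_COUNT : Pool.Agent.J4H13.LC.S_COUNT := by
  classical
  intro n d hd hn Φ Φc hLS hsub htwo hcount
  -- the sum of the weights
  have hn4 : 4 ≤ n := by omega
  have hval : ∃ i : Fin n, ∑ F ∈ Φ.filter (fun F => i ∈ F), w Φc F ≤ 1 := by
    by_contra hcon
    push Not at hcon
    have h1 : ∑ F ∈ Φ, (F.card : ℚ) * w Φc F = ∑ i : Fin n, ∑ F ∈ Φ.filter (fun F => i ∈ F), w Φc F := by
      have h2 : ∀ F ∈ Φ, (F.card : ℚ) * w Φc F = ∑ i : Fin n, if i ∈ F then w Φc F else 0 := by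
        intro F _
        rw [← Finset.sum_filter, Finset.sum_const, nsmul_eq_mul]
        congr 3
        ext i
        simp
      rw [Finset.sum_congr rfl h2, Finset.sum_comm]
      refine Finset.sum_congr rfl fun i _ => ?_
      rw [Finset.sum_filter]
    have h3 : (n : ℚ) < ∑ F ∈ Φ, (F.card : ℚ) * w Φc F := by
      rw [h1]
      have hne : (Finset.univ : Finset (Fin n)).Nonempty := ⟨⟨0, by omega⟩, Finset.mem_univ _⟩
      calc (n : ℚ) = ∑ i : Fin n, (1 : ℚ) := by simp
        _ < _ := Finset.sum_lt_sum_of_nonempty hne fun i _ => hcon i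
    have h4 : (8 : ℚ) * ∑ F ∈ Φ, ((((F.card + if F ∈ Φc then 1 else 0) / 2).choose 2 : ℕ) : ℚ) +
        ∑ F ∈ Φ, (F.card : ℚ) * w Φc F = ∑ F ∈ Φ, (F.card : ℚ) * (F.card - 1) := by
      rw [Finset.mul_sum, ← Finset.sum_add_distrib]
      exact Finset.sum_congr rfl fun F hF => w_eq Φc F (hLS.1 F hF)
    have h5 : ∑ F ∈ Φ, (F.card : ℚ) * (F.card - 1) = n * (n - 1) := by
      have h6 := hLS.card_pairs
      have h7 : ((∑ F ∈ Φ, F.card * (F.card - 1) : ℕ) : ℚ) = ((n * (n - 1) : ℕ) : ℚ) := by rw [h6]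
      rw [Nat.cast_sum] at h7
      have h8 : ∀ F ∈ Φ, ((F.card * (F.card - 1) : ℕ) : ℚ) = (F.card : ℚ) * (F.card - 1) := by
        intro F hF
        have := hLS.1 F hF
        rw [Nat.cast_mul, Nat.cast_sub (by omega)]
        simp
      rw [Finset.sum_congr rfl h8] at h7
      rw [h7, Nat.cast_mul, Nat.cast_sub (by omega)]
      simp
    have h9 : ((d - 1).choose 2 : ℚ) ≤
        ∑ F ∈ Φ, ((((F.card + if F ∈ Φc then 1 else 0) / 2).choose 2 : ℕ) : ℚ) := by
      have := (Nat.cast_le (α := ℚ)).2 hcount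
      rw [Nat.cast_sum] at this
      exact this
    have h10 := ch2q (d - 1)
    have h11 : (n : ℚ) = 2 * ((d - 1 : ℕ) : ℚ) := by
      rw [hn]
      push_cast
      ring
    rw [h5] at h4
    rw [h11] at h3 h4
    nlinarith
  obtain ⟨i, hi⟩ := hval
  set T := Φ.filter (fun F => i ∈ F) with hT
  have hT2 : ∀ F ∈ T, 2 ≤ F.card := fun F hF => hLS.1 F (Finset.mem_filter.1 hF).1
  set Te := T.filter (fun F => Even F.card) with hTe
  set Tc := T.filter (fun F => ¬ Even F.card ∧ F ∈ Φc) with hTc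
  set To := T.filter (fun F => ¬ Even F.card ∧ F ∉ Φc) with hTo
  have hsum : ∑ F ∈ T, w' Φc F = (Te.card : ℤ) + 2 * To.card - Tc.card := by
    have h1 : ∀ F ∈ T, w' Φc F = (if Even F.card then (1 : ℤ) else 0) +
        2 * (if ¬ Even F.card ∧ F ∉ Φc then (1 : ℤ) else 0) -
        (if ¬ Even F.card ∧ F ∈ Φc then (1 : ℤ) else 0) := by
      intro F _
      unfold w'
      by_cases h2 : Even F.card <;> by_cases h3 : F ∈ Φc <;> simp [h2, h3]
    rw [Finset.sum_congr rfl h1, Finset.sum_sub_distrib, Finset.sum_add_distrib, ← Finset.mul_sum,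
      ← Finset.sum_filter, ← Finset.sum_filter, ← Finset.sum_filter]
    simp [hTe, hTc, hTo]
  have hodd : Odd Te.card := by
    have h1 := hLS.card_through i
    rw [← hT] at h1
    have h2 : Odd (∑ F ∈ T, (F.card - 1)) := by
      rw [h1]
      exact ⟨d - 2, by omega⟩
    rw [Finset.odd_sum_iff_odd_card_odd] at h2
    have h3 : T.filter (fun F => Odd (F.card - 1)) = Te := by
      rw [hTe]
      refine Finset.filter_congr fun F hF => ?_
      have := hT2 F hF
      constructor
      · rintro ⟨k, hk⟩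
        exact ⟨k + 1, by omega⟩
      · rintro ⟨k, hk⟩
        exact ⟨k - 1, by omega⟩
    rw [h3] at h2
    exact h2
  have hc2 : Tc.card ≤ 2 := by
    refine (Finset.card_le_card ?_).trans (htwo i)
    intro F hF
    rw [hTc, Finset.mem_filter, hT, Finset.mem_filter] at hF
    rw [Finset.mem_filter]
    exact ⟨hF.2.2, hF.1.2⟩
  have hle : ∑ F ∈ T, w' Φc F ≤ 1 := by
    have h1 : ((∑ F ∈ T, w' Φc F : ℤ) : ℚ) ≤ 1 := by
      rw [Int.cast_sum]
      exact (Finset.sum_le_sum fun F hF => w'_le Φc F (hT2 F hF)).trans hi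
    exact_mod_cast h1
  have hlt : Tc.Nonempty → ∑ F ∈ T, w' Φc F < 1 := by
    rintro ⟨F₀, hF₀⟩
    have h1 : ((∑ F ∈ T, w' Φc F : ℤ) : ℚ) < 1 := by
      rw [Int.cast_sum]
      refine (Finset.sum_lt_sum (fun F hF => w'_le Φc F (hT2 F hF)) ⟨F₀, ?_, ?_⟩).trans_le hi
      · exact (Finset.mem_filter.1 hF₀).1
      · have h2 := Finset.mem_filter.1 hF₀
        exact w'_lt Φc F₀ (hT2 F₀ h2.1) h2.2.1 h2.2.2
    exact_mod_cast h1
  have hTe1 : Te.card = 1 := by
    obtain ⟨k, hk⟩ := hodd
    rcases Tc.eq_empty_or_nonempty with h | h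
    · rw [h, Finset.card_empty] at hsum
      omega
    · have := hlt h
      omega
  have hTo0 : To.card = 0 := by
    rcases Tc.eq_empty_or_nonempty with h | h
    · rw [h, Finset.card_empty] at hsum
      omega
    · have := hlt h
      omega
  obtain ⟨E, hE⟩ := Finset.card_eq_one.1 hTe1
  have hE' : E ∈ Te := by rw [hE]; exact Finset.mem_singleton_self E
  have hET := Finset.mem_filter.1 hE'
  have hEΦ := Finset.mem_filter.1 hET.1
  -- all blocks through `i`
  have hall : ∀ F ∈ T, F = E ∨ F ∈ Tc := by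
    intro F hF
    by_cases h1 : Even F.card
    · left
      have : F ∈ Te := Finset.mem_filter.2 ⟨hF, h1⟩
      rw [hE] at this
      exact Finset.mem_singleton.1 this
    · right
      by_cases h2 : F ∈ Φc
      · exact Finset.mem_filter.2 ⟨hF, h1, h2⟩
      · exfalso
        have : F ∈ To := Finset.mem_filter.2 ⟨hF, h1, h2⟩
        rw [Finset.card_eq_zero.1 hTo0] at this
        exact Finset.notMem_empty _ this
  have hcov : ∀ j, j ∈ E ∨ ∃ F ∈ Tc, j ∈ F := by
    intro j
    by_cases hij : j = i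
    · left
      rw [hij]
      exact hEΦ.2
    · obtain ⟨F, hF, hiF, hjF⟩ := hLS.2.1 i j (Ne.symm hij)
      rcases hall F (Finset.mem_filter.2 ⟨hF, hiF⟩) with h | h
      · left
        rw [← h]
        exact hjF
      · right
        exact ⟨F, h, hjF⟩
  have hmemc : ∀ F ∈ Tc, F ∈ Φc ∧ Odd F.card ∧ i ∈ F := by
    intro F hF
    have h1 := Finset.mem_filter.1 hF
    exact ⟨h1.2.2, Nat.not_even_iff_odd.1 h1.2.1, (Finset.mem_filter.1 h1.1).2⟩
  have hcases : Tc.card = 0 ∨ Tc.card = 1 ∨ Tc.card = 2 := by omega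
  rcases hcases with h | h | h
  · left
    refine ⟨E, hEΦ.1, fun j => ?_⟩
    rcases hcov j with h1 | ⟨F, hF, _⟩
    · exact h1
    · rw [Finset.card_eq_zero.1 h] at hF
      exact absurd hF (Finset.notMem_empty _)
  · right; left
    obtain ⟨A, hA⟩ := Finset.card_eq_one.1 h
    have hA' : A ∈ Tc := by rw [hA]; exact Finset.mem_singleton_self A
    obtain ⟨h1, h2, h3⟩ := hmemc A hA'
    refine ⟨A, h1, E, hEΦ.1, ?_, h2, hET.2, ⟨i, h3, hEΦ.2⟩, fun j => ?_⟩
    · rintro rfl
      exact (Nat.not_even_iff_odd.2 h2) hET.2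
    · rcases hcov j with h4 | ⟨F, hF, hj⟩
      · exact Or.inr h4
      · rw [hA, Finset.mem_singleton] at hF
        rw [hF] at hj
        exact Or.inl hj
  · right; right
    obtain ⟨A, B, hAB, hA⟩ := Finset.card_eq_two.1 h
    have hA' : A ∈ Tc := by rw [hA]; simp
    have hB' : B ∈ Tc := by rw [hA]; simp
    obtain ⟨h1, h2, h3⟩ := hmemc A hA'
    obtain ⟨h1', h2', h3'⟩ := hmemc B hB'
    refine ⟨A, h1, B, h1', E, hEΦ.1, ?_, hAB, h2, h2', hET.2, ⟨i, h3, h3', hEΦ.2⟩, fun j => ?_⟩
    · intro hEc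
      have hsub2 : insert E Tc ⊆ Φc.filter (fun F => i ∈ F) := by
        intro F hF
        rcases Finset.mem_insert.1 hF with rfl | hF
        · exact Finset.mem_filter.2 ⟨hEc, hEΦ.2⟩
        · obtain ⟨h5, -, h6⟩ := hmemc F hF
          exact Finset.mem_filter.2 ⟨h5, h6⟩
      have hEn : E ∉ Tc := by
        intro h5
        exact (Nat.not_even_iff_odd.2 (hmemc E h5).2.1) hET.2
      have h7 := Finset.card_le_card hsub2
      rw [Finset.card_insert_of_notMem hEn] at h7
      have := htwo i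
      omega
    · rcases hcov j with h4 | ⟨F, hF, hj⟩
      · exact Or.inr (Or.inr h4)
      · rw [hA, Finset.mem_insert, Finset.mem_singleton] at hF
        rcases hF with rfl | rfl
        · exact Or.inl hj
        · exact Or.inr (Or.inl hj)

end Pool.Agent.J4H63.LC
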