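import Pool.Agent.J4H63.LC.RegC

/-!
# Regularity: the theorem
-/

set_option autoImplicit false

open FF

namespace Pool.Agent.J4H63.LC

open Pool.Agent.W602.GT Pool.Agent.W603.LV Pool.Agent.J4H13.LA Pool.Agent.J4H13.LC

theorem t_REG : S_REG := by
  intro K _ _ x y hxy C N e d hC hN he hNe hd l hl0 hl v hv0 hv Q hQ hmult P D₁ D₂ h₁ h₂
  classical
  rw [← Del_gp]
  have hne := fun v (hv : v ≠ 0) => ev_gp_ne_zero hxy (v := v) hv
  have hgp : ∀ i, gp x y i ≠ 0 := by
    intro i
    rw [← ev_single (gp x y) i]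
    apply hne
    intro h
    have := congrFun h i
    simp at this
  have hC0 : C ≠ 0 := by
    intro h
    apply hN.1 (Pi.single 0 1)
    · intro h
      have := congrFun h 0
      simp at this
    · rw [h]
      exact dvd_zero _
  obtain ⟨c, hc, hreg, i₀, hi₀⟩ := exists_scale P hgp
  obtain ⟨z, hz⟩ : ∃ z : Fin 3 → K, z = fun i => c * gp x y i := ⟨_, rfl⟩
  have hzreg : ∀ i, Ge P 0 (z i) := by
    intro i
    rw [hz]
    exact hreg i
  have hzi₀ : P.ord (z i₀) = 0 := by
    rw [hz]
    exact hi₀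
  have hzi₀0 : z i₀ ≠ 0 := by
    rw [hz]
    exact mul_ne_zero hc (hgp i₀)
  have hevz : ∀ w, ev z w = c * ev (gp x y) w := by
    intro w
    rw [hz, ev_scale]
  have hzne : ∀ w : V3, w ≠ 0 → ev z w ≠ 0 := by
    intro w hw
    rw [hevz]
    exact mul_ne_zero hc (hne w hw)
  obtain ⟨Cz, hCz⟩ : ∃ Cz, Cz = MvPolynomial.aeval z C := ⟨_, rfl⟩
  have hCz' : Cz = c ^ e * MvPolynomial.aeval (gp x y) C := by
    have h4 := Pool.Agent.Helper397.HK.aeval_smul_of_homog hC c (gp x y)
    rw [← h4, hCz]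
    congr 2
  have hCz0 : Cz ≠ 0 := by
    rw [hCz']
    exact mul_ne_zero (pow_ne_zero _ hc) (aeval_gp_ne_zero hxy hC hC0)
  have hCzreg : Ge P 0 Cz := by
    rw [hCz]
    exact ge_aeval hzreg C
  obtain ⟨γ, hγ⟩ : ∃ γ, γ = P.ord Cz := ⟨_, rfl⟩
  have hγ0 : 0 ≤ γ := by
    rw [hγ]
    exact hCzreg.resolve_left hCz0
  -- the scaled root
  obtain ⟨u, hu⟩ : ∃ u : K, u = c ^ d * v := ⟨_, rfl⟩
  have hu0 : u ≠ 0 := hu ▸ mul_ne_zero (pow_ne_zero _ hc) hv0
  have hu2 : u ^ 2 = Cz * ∏ i, ev z (l i) := by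
    rw [hu, mul_pow, hv, hCz']
    simp only [hevz]
    rw [Finset.prod_mul_distrib, Finset.prod_const, Finset.card_univ, Fintype.card_fin, ← pow_mul,
      mul_comm d 2, ← hNe, pow_add]
    ring
  have hord : 2 * P.ord u = γ + ∑ i, P.ord (ev z (l i)) := by
    rw [← ord_prod P _ _ (fun i _ => hzne _ (hl0 i)), hγ, ← P.ord_mul hCz0
      (Finset.prod_ne_zero_iff.2 fun i _ => hzne _ (hl0 i)), ← hu2, P.ord_pow]
    push_cast
    rfl
  have hform : Del D₁ D₂ (gp x y) * (MvPolynomial.aeval (gp x y) Q / v) =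
      Del D₁ D₂ z * MvPolynomial.aeval z Q / u := by
    have h3 : MvPolynomial.aeval z Q = c ^ (d - 3) * MvPolynomial.aeval (gp x y) Q := by
      have h4 := Pool.Agent.Helper397.HK.aeval_smul_of_homog hQ c (gp x y)
      rw [← h4]
      congr 2
    rw [h3, hz, Del_smul, hu]
    obtain ⟨e, rfl⟩ : ∃ e, d = e + 3 := ⟨d - 3, by omega⟩
    rw [Nat.add_sub_cancel]
    field_simp
    ring
  rw [hform]
  -- the order of the denominator
  have hthr : ∑ i, P.ord (ev z (l i)) = ∑ i ∈ thr l (WP P z), P.ord (ev z (l i)) := by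
    symm
    apply Finset.sum_subset (Finset.subset_univ _)
    intro i _ hi
    rw [mem_thr] at hi
    exact ord_of_notMem hzreg hi
  have hWfin : Module.finrank ℂ (WP P z) ≤ 2 := by
    have he₀ : (Pi.single i₀ 1 : V3) ∉ WP P z := by
      intro h
      rw [mem_WP, ev_single] at h
      rcases h with h | h
      · exact hzi₀0 h
      · omega
    have h1 : WP P z < ⊤ := lt_top_iff_ne_top.2 fun h => he₀ (by rw [h]; trivial)
    have h2 := Submodule.finrank_lt_finrank_of_lt h1
    rw [finrank_top] at h2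
    have h3 : Module.finrank ℂ V3 = 3 := by simp
    omega
  have hQm := hmult (WP P z) hWfin
  obtain ⟨r, hr⟩ : ∃ r, r = (thr l (WP P z)).card := ⟨_, rfl⟩
  have hmu : mu C l (WP P z) = r + if C ∈ IW (WP P z) then 1 else 0 := by
    unfold mu
    rw [hr]
  rw [hmu] at hQm
  have h16 : Ge P (-P.ord u) u⁻¹ := Or.inr (by rw [P.ord_inv])
  rw [div_eq_mul_inv]
  -- the final step
  suffices hsuff : ∃ A B : ℤ, Ge P A (Del D₁ D₂ z) ∧ Ge P B (MvPolynomial.aeval z Q) ∧
      P.ord u ≤ A + B by
    obtain ⟨A, B, hA, hB, hAB⟩ := hsuff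
    exact ((hA.mul hB).mul h16).mono (by omega)
  by_cases hγ1 : γ = 0
  · -- the place is not over the curve
    have hCW : C ∉ IW (WP P z) := by
      intro h
      have h2 := ge_of_mem_IW hzreg h
      rw [← hCz] at h2
      have h3 := h2.resolve_left hCz0
      omega
    rw [if_neg hCW, add_zero] at hQm
    by_cases hW : WP P z = ⊥
    · -- no linear form is positive
      have h3 : thr l (WP P z) = ∅ := by
        rw [Finset.eq_empty_iff_forall_notMem]
        intro i hi
        rw [mem_thr, hW, Submodule.mem_bot] at hi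
        exact hl0 i hi
      rw [hthr, h3, Finset.sum_empty] at hord
      exact ⟨0, 0, ge_Del_zero h₁ h₂ hzreg, ge_aeval hzreg Q, by omega⟩
    · obtain ⟨b, hb, hb0, ha0, hab, hb1, hmin, hmax⟩ := exists_coords hzreg hzne hzi₀ hW
      have hbne : ∀ j, ev z (b j) ≠ 0 := fun j => hzne _ (hb.ne_zero j)
      have h5' := sum_ord_le (hbne 2) hab hmax hl0 hl
      obtain ⟨α, hα⟩ : ∃ α, α = P.ord (ev z (b 1)) := ⟨_, rfl⟩
      obtain ⟨β, hβ⟩ : ∃ β, β = P.ord (ev z (b 2)) := ⟨_, rfl⟩
      -- the numerator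
      have h3 : Ge P (α + β - 1) (Del D₁ D₂ z) := by
        apply ge_Del_of_basis hb
        rw [hα, hβ]
        exact ge_Del h₁ h₂ (z := fun j => ev z (b j)) hbne hb0
      rw [← hα] at ha0 hab hmin hmax
      rw [← hβ] at hab hb1
      rw [← hα, ← hβ, ← hr, ← hthr] at h5'
      have h4 : Ge P (((r / 2 - 1 : ℕ) : ℤ) * α) (MvPolynomial.aeval z Q) := by
        refine ge_of_mem_pow hzreg ?_ hQm
        intro w hw
        by_cases hw0 : w = 0
        · rw [hw0, ev_zero]
          exact Ge.zero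
        · exact Or.inr (hmin w hw hw0)
      refine ⟨_, _, h3, h4, ?_⟩
      have h13 : (r : ℤ) ≤ 2 * ((r / 2 - 1 : ℕ) : ℤ) + 3 := by
        have : r ≤ 2 * (r / 2 - 1) + 3 := by omega
        exact_mod_cast this
      have h14 : (r : ℤ) * α ≤ (2 * ((r / 2 - 1 : ℕ) : ℤ) + 3) * α :=
        mul_le_mul_of_nonneg_right h13 ha0
      have h15 : (2 * ((r / 2 - 1 : ℕ) : ℤ) + 3) * α = 2 * (((r / 2 - 1 : ℕ) : ℤ) * α) + 3 * α := by
        ring
      omega
  · -- the place is over the curve
    have hpos : Ge P 1 (MvPolynomial.aeval z C) := by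
      rw [← hCz]
      exact Or.inr (by omega)
    have hunit := exists_unit_pderiv hN hzreg hzi₀ hzi₀0
    by_cases hW : WP P z = ⊥
    · have h3 : thr l (WP P z) = ∅ := by
        rw [Finset.eq_empty_iff_forall_notMem]
        intro i hi
        rw [mem_thr, hW, Submodule.mem_bot] at hi
        exact hl0 i hi
      rw [hthr, h3, Finset.sum_empty] at hord
      have hb : LinearIndependent ℂ (fun j : Fin 3 => (Pi.single j 1 : V3)) := by
        have := (Pi.basisFun ℂ (Fin 3)).linearIndependent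
        convert this using 1
        funext j
        rw [Pi.basisFun_apply]
      obtain ⟨h, hh0, hhs, hhD, hh1⟩ := exists_h hC hzreg hb
      simp only [ev_single, ← hCz] at hhs hhD
      have h4 := ge_Del_unit h₁ h₂ hzreg hh0 (fun h => hunit (hh1 h)) hγ0
        (Or.inr hγ.le) hhs (hhD D₁) (hhD D₂)
      exact ⟨_, _, h4, ge_aeval hzreg Q, by omega⟩
    · obtain ⟨b, hb, hb0, ha0, hab, hb1, hmin, hmax⟩ := exists_coords hzreg hzne hzi₀ hW
      have hbne : ∀ j, ev z (b j) ≠ 0 := fun j => hzne _ (hb.ne_zero j)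
      have hb2W : b 2 ∈ WP P z := mem_WP.2 (Or.inr hb1)
      by_cases hdim : ∀ w ∈ WP P z, w ∈ Submodule.span ℂ {b 2}
      · exact absurd (dvd_of_line hzreg hzne hb hb0 hb2W hdim hC hpos) (hN.1 _ (hb.ne_zero 2))
      · push Not at hdim
        obtain ⟨w, hw, hwb⟩ := hdim
        have ha1 : 1 ≤ P.ord (ev z (b 1)) := by
          have h3 := hmax w hw hwb
          have hw0 : w ≠ 0 := fun h => hwb (by rw [h]; exact Submodule.zero_mem _)
          have h4 := (mem_WP.1 hw).resolve_left (hzne w hw0)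
          omega
        have hb1W : b 1 ∈ WP P z := mem_WP.2 (Or.inr ha1)
        have hb0W : b 0 ∉ WP P z := by
          intro h
          have := (mem_WP.1 h).resolve_left (hbne 0)
          omega
        have hspan : ∀ u : V3, ∃ c : ℂ, u - c • b 0 ∈ WP P z := by
          intro u
          let B : Module.Basis (Fin 3) ℂ V3 := basisOfLinearIndependentOfCardEqFinrank hb (by simp)
          have hB : ∀ i, B i = b i := by
            intro i
            exact congrFun (coe_basisOfLinearIndependentOfCardEqFinrank hb _) i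
          refine ⟨B.repr u 0, ?_⟩
          have h1 := B.sum_repr u
          rw [Fin.sum_univ_three, hB, hB, hB] at h1
          have h2 : u - B.repr u 0 • b 0 = B.repr u 1 • b 1 + B.repr u 2 • b 2 := by
            rw [sub_eq_iff_eq_add]
            refine h1.symm.trans ?_
            abel
          rw [h2]
          exact Submodule.add_mem _ (Submodule.smul_mem _ _ hb1W) (Submodule.smul_mem _ _ hb2W)
        have hCW : C ∈ IW (WP P z) := mem_IW_of_ge hzreg hb0W hspan hC hpos
        rw [if_pos hCW] at hQm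
        have h5' := sum_ord_le (hbne 2) hab hmax hl0 hl
        obtain ⟨α, hα⟩ : ∃ α, α = P.ord (ev z (b 1)) := ⟨_, rfl⟩
        obtain ⟨β, hβ⟩ : ∃ β, β = P.ord (ev z (b 2)) := ⟨_, rfl⟩
        -- the numerator
        have h3 : Ge P (α + β - 1) (Del D₁ D₂ z) := by
          apply ge_Del_of_basis hb
          rw [hα, hβ]
          exact ge_Del h₁ h₂ (z := fun j => ev z (b j)) hbne hb0
        have h3' : Ge P (γ + α - 1) (Del D₁ D₂ z) := by
          apply ge_Del_of_basis hb
          obtain ⟨h, hh0, hhs, hhD, hh1⟩ := exists_h hC hzreg hb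
          rw [← hCz] at hhs
          simp only [← hCz] at hhD
          rw [hα, hγ]
          exact ge_Del_point h₁ h₂ (y := fun j => ev z (b j)) hbne hCz0 hb0 ha1 hab hh0
            (fun h => hunit (hh1 h)) (by omega) hhs (hhD D₁) (hhD D₂)
        rw [← hα] at ha0 hab hmin hmax ha1
        rw [← hβ] at hab hb1
        rw [← hα, ← hβ, ← hr, ← hthr] at h5'
        have h4 : Ge P ((((r + 1) / 2 - 1 : ℕ) : ℤ) * α) (MvPolynomial.aeval z Q) := by
          refine ge_of_mem_pow hzreg ?_ hQm
          intro w hw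
          by_cases hw0 : w = 0
          · rw [hw0, ev_zero]
            exact Ge.zero
          · exact Or.inr (hmin w hw hw0)
        have h6 : Ge P (max (α + β - 1) (γ + α - 1)) (Del D₁ D₂ z) := by
          rcases max_cases (α + β - 1) (γ + α - 1) with h | h
          · rw [h.1]
            exact h3
          · rw [h.1]
            exact h3'
        refine ⟨_, _, h6, h4, ?_⟩
        have h13 : (r : ℤ) ≤ 2 * (((r + 1) / 2 - 1 : ℕ) : ℤ) + 2 := by
          have : r ≤ 2 * ((r + 1) / 2 - 1) + 2 := by omega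
          exact_mod_cast this
        have h14 : (r : ℤ) * α ≤ (2 * (((r + 1) / 2 - 1 : ℕ) : ℤ) + 2) * α :=
          mul_le_mul_of_nonneg_right h13 ha0
        have h15 : (2 * (((r + 1) / 2 - 1 : ℕ) : ℤ) + 2) * α =
            2 * ((((r + 1) / 2 - 1 : ℕ) : ℤ) * α) + 2 * α := by
          ring
        have h17 : α + β - 1 ≤ max (α + β - 1) (γ + α - 1) := le_max_left _ _
        have h18 : γ + α - 1 ≤ max (α + β - 1) (γ + α - 1) := le_max_right _ _
        omega

end Pool.Agent.J4H63.LC
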