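import Pool.Agent.J4H13.LC.Jobs
import Mathlib.RingTheory.MvPolynomial.EulerIdentity

/-!
# Regularity: helper lemmas
-/

set_option autoImplicit false

open FF

namespace Pool.Agent.J4H63.LC

open Pool.Agent.W602.GT Pool.Agent.W603.LV Pool.Agent.J4H13.LA Pool.Agent.J4H13.LC

variable {K : Type} [Field K] [Algebra ℂ K]

lemma not_ge_one_const (P : Place ℂ K) {c : ℂ} (hc : c ≠ 0) : ¬ Ge P 1 (algebraMap ℂ K c) := by
  intro h
  rcases h with h | h
  · exact hc ((map_eq_zero _).1 h)
  · rw [P.ord_const hc] at h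
    omega

lemma not_ge_one_one (P : Place ℂ K) : ¬ Ge P 1 (1 : K) := by
  have := not_ge_one_const P (one_ne_zero (α := ℂ))
  rwa [map_one] at this

lemma ge_mul_cases {P : Place ℂ K} {a b : K} (ha : Ge P 0 a) (hb : Ge P 0 b)
    (h : Ge P 1 (a * b)) : Ge P 1 a ∨ Ge P 1 b := by
  by_cases ha0 : a = 0
  · exact Or.inl (Or.inl ha0)
  by_cases hb0 : b = 0
  · exact Or.inr (Or.inl hb0)
  have h1 := h.resolve_left (mul_ne_zero ha0 hb0)
  rw [P.ord_mul ha0 hb0] at h1
  have h2 := ha.resolve_left ha0
  have h3 := hb.resolve_left hb0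
  by_cases h4 : 1 ≤ P.ord a
  · exact Or.inl (Or.inr h4)
  · exact Or.inr (Or.inr (by omega))

lemma ge_pow_cases {P : Place ℂ K} {a : K} (ha : Ge P 0 a) (n : ℕ) (h : Ge P 1 (a ^ n)) :
    Ge P 1 a := by
  induction n with
  | zero =>
    rw [pow_zero] at h
    exact absurd h (not_ge_one_one P)
  | succ n ih =>
    rw [pow_succ] at h
    have h0 : Ge P 0 (a ^ n) := by
      have := ha.pow n
      rwa [mul_zero] at this
    rcases ge_mul_cases h0 ha h with h1 | h1
    · exact ih h1
    · exact h1

lemma ge_aeval {P : Place ℂ K} {z : Fin 3 → K} (hz : ∀ i, Ge P 0 (z i)) (a : P3) :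
    Ge P 0 (MvPolynomial.aeval z a) := by
  induction a using MvPolynomial.induction_on with
  | C a =>
    rw [MvPolynomial.algHom_C]
    exact Ge.const a
  | add p q hp hq =>
    rw [map_add]
    exact hp.add hq
  | mul_X p i hp =>
    rw [map_mul, MvPolynomial.aeval_X]
    exact (hp.mul (hz i)).mono (by omega)

/-- the chain rule -/
lemma chain_rule (D : Derivation ℂ K K) (z : Fin 3 → K) (C : P3) :
    D (MvPolynomial.aeval z C) =
      ∑ i, MvPolynomial.aeval z (MvPolynomial.pderiv i C) * D (z i) := by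
  induction C using MvPolynomial.induction_on with
  | C a =>
    rw [MvPolynomial.algHom_C, D.map_algebraMap]
    symm
    apply Finset.sum_eq_zero
    intro i _
    rw [MvPolynomial.pderiv_C, map_zero, zero_mul]
  | add p q hp hq =>
    rw [map_add, map_add, hp, hq, ← Finset.sum_add_distrib]
    refine Finset.sum_congr rfl fun i _ => ?_
    rw [map_add, map_add, add_mul]
  | mul_X p j hp =>
    rw [map_mul, D.leibniz, hp, MvPolynomial.aeval_X]
    simp only [Derivation.leibniz, smul_eq_mul, MvPolynomial.pderiv_X, map_add, map_mul,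
      MvPolynomial.aeval_X, add_mul]
    rw [Finset.sum_add_distrib, Finset.mul_sum]
    congr 1
    · rw [Finset.sum_eq_single j]
      · rw [Pi.single_eq_same, map_one, mul_one]
      · intro i _ hi
        rw [Pi.single_eq_of_ne (by exact fun h => hi h.symm), map_zero, mul_zero, zero_mul]
      · intro h
        exact absurd (Finset.mem_univ j) h
    · refine Finset.sum_congr rfl fun i _ => ?_
      ring

/-- Euler's identity -/
lemma euler {C : P3} {e : ℕ} (hC : C.IsHomogeneous e) (z : Fin 3 → K) :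
    ∑ i, MvPolynomial.aeval z (MvPolynomial.pderiv i C) * z i =
      (e : K) * MvPolynomial.aeval z C := by
  have h1 := congrArg (MvPolynomial.aeval z) hC.sum_X_mul_pderiv
  rw [map_sum, map_nsmul, nsmul_eq_mul] at h1
  rw [← h1]
  refine Finset.sum_congr rfl fun i _ => ?_
  rw [map_mul, MvPolynomial.aeval_X, mul_comm]

/-- the gradient in other coordinates -/
lemma exists_h {C : P3} {e : ℕ} (hC : C.IsHomogeneous e) {P : Place ℂ K} {z : Fin 3 → K}
    (hz : ∀ i, Ge P 0 (z i)) {b : Fin 3 → V3} (hb : LinearIndependent ℂ b) :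
    ∃ h : Fin 3 → K, (∀ j, Ge P 0 (h j)) ∧
      (∑ j, h j * ev z (b j) = (e : K) * MvPolynomial.aeval z C) ∧
      (∀ D : Derivation ℂ K K, ∑ j, h j * D (ev z (b j)) = D (MvPolynomial.aeval z C)) ∧
      ((∀ j, Ge P 1 (h j)) → ∀ i, Ge P 1 (MvPolynomial.aeval z (MvPolynomial.pderiv i C))) := by
  have hdet : IsUnit (Matrix.of b).det := by
    have h5 : LinearIndependent ℂ (Matrix.of b).row := hb
    have h6 := Matrix.linearIndependent_rows_iff_isUnit.1 h5
    exact (Matrix.isUnit_iff_isUnit_det _).1 h6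
  obtain ⟨B, hB⟩ : ∃ B : Matrix (Fin 3) (Fin 3) ℂ, B = (Matrix.of b)⁻¹ := ⟨_, rfl⟩
  have h1 : B * Matrix.of b = 1 := by rw [hB, Matrix.nonsing_inv_mul _ hdet]
  have h2 : Matrix.of b * B = 1 := by rw [hB, Matrix.mul_nonsing_inv _ hdet]
  obtain ⟨g, hg⟩ : ∃ g : Fin 3 → K, g = fun i => MvPolynomial.aeval z (MvPolynomial.pderiv i C) :=
    ⟨_, rfl⟩
  have hgi : ∀ i, MvPolynomial.aeval z (MvPolynomial.pderiv i C) = g i := by
    intro i
    rw [hg]
  -- sums
  have hsum : ∀ (f : Fin 3 → K), ∑ j, (∑ i, g i * algebraMap ℂ K (B i j)) *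
      (∑ i, algebraMap ℂ K (b j i) * f i) = ∑ i, g i * f i := by
    intro f
    have h3 : ∀ i k, ∑ j, algebraMap ℂ K (B i j) * algebraMap ℂ K (b j k) =
        if i = k then 1 else 0 := by
      intro i k
      have h4 := congrFun (congrFun h1 i) k
      rw [Matrix.mul_apply, Matrix.one_apply] at h4
      have h5 := congrArg (algebraMap ℂ K) h4
      rw [map_sum] at h5
      simp only [map_mul, Matrix.of_apply] at h5
      rw [h5]
      split_ifs
      · rw [map_one]
      · rw [map_zero]
    calc ∑ j, (∑ i, g i * algebraMap ℂ K (B i j)) * (∑ i, algebraMap ℂ K (b j i) * f i)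
        = ∑ j, ∑ i, ∑ k, g i * f k * (algebraMap ℂ K (B i j) * algebraMap ℂ K (b j k)) := by
          refine Finset.sum_congr rfl fun j _ => ?_
          rw [Finset.sum_mul_sum]
          refine Finset.sum_congr rfl fun i _ => ?_
          refine Finset.sum_congr rfl fun k _ => ?_
          ring
      _ = ∑ i, ∑ k, g i * f k * ∑ j, (algebraMap ℂ K (B i j) * algebraMap ℂ K (b j k)) := by
          rw [Finset.sum_comm]
          refine Finset.sum_congr rfl fun i _ => ?_
          rw [Finset.sum_comm]
          refine Finset.sum_congr rfl fun k _ => ?_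
          rw [Finset.mul_sum]
      _ = ∑ i, g i * f i := by
          refine Finset.sum_congr rfl fun i _ => ?_
          simp only [h3]
          rw [Finset.sum_eq_single i]
          · rw [if_pos rfl, mul_one]
          · intro k _ hk
            rw [if_neg (fun h => hk h.symm), mul_zero]
          · intro h
            exact absurd (Finset.mem_univ i) h
  refine ⟨fun j => ∑ i, g i * algebraMap ℂ K (B i j), ?_, ?_, ?_, ?_⟩
  · intro j
    refine Ge.sum _ _ fun i _ => ?_
    have h3 : Ge P 0 (g i) := by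
      rw [← hgi i]
      exact ge_aeval hz _
    exact (h3.mul (Ge.const _)).mono (by omega)
  · rw [← euler hC z]
    simp only [hgi]
    exact hsum z
  · intro D
    rw [chain_rule]
    simp only [hgi]
    rw [← hsum]
    refine Finset.sum_congr rfl fun j _ => ?_
    congr 1
    unfold ev
    rw [map_sum]
    refine Finset.sum_congr rfl fun i _ => ?_
    rw [D.leibniz, D.map_algebraMap, smul_zero, add_zero, smul_eq_mul]
  · intro hh i
    rw [hgi]
    have h3 : ∀ i k, ∑ j, algebraMap ℂ K (B i j) * algebraMap ℂ K (b j k) =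
        if i = k then 1 else 0 := by
      intro i k
      have h4 := congrFun (congrFun h1 i) k
      rw [Matrix.mul_apply, Matrix.one_apply] at h4
      have h5 := congrArg (algebraMap ℂ K) h4
      rw [map_sum] at h5
      simp only [map_mul, Matrix.of_apply] at h5
      rw [h5]
      split_ifs
      · rw [map_one]
      · rw [map_zero]
    have h4 : g i = ∑ j, (∑ k, g k * algebraMap ℂ K (B k j)) * algebraMap ℂ K (b j i) := by
      calc g i = ∑ k, g k * (if k = i then 1 else 0) := by
            rw [Finset.sum_eq_single i]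
            · rw [if_pos rfl, mul_one]
            · intro k _ hk
              rw [if_neg hk, mul_zero]
            · intro h
              exact absurd (Finset.mem_univ i) h
        _ = ∑ k, ∑ j, g k * (algebraMap ℂ K (B k j) * algebraMap ℂ K (b j i)) := by
            refine Finset.sum_congr rfl fun k _ => ?_
            rw [← h3 k i, Finset.mul_sum]
        _ = ∑ j, (∑ k, g k * algebraMap ℂ K (B k j)) * algebraMap ℂ K (b j i) := by
            rw [Finset.sum_comm]
            refine Finset.sum_congr rfl fun j _ => ?_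
            rw [Finset.sum_mul]
            refine Finset.sum_congr rfl fun k _ => ?_
            ring
    rw [h4]
    refine Ge.sum _ _ fun j _ => ?_
    exact ((hh j).mul (Ge.const _)).mono (by omega)

/-- some partial derivative is a unit at the place -/
lemma exists_unit_pderiv {C : P3} (hN : Nice C) {P : Place ℂ K} {z : Fin 3 → K}
    (hz : ∀ i, Ge P 0 (z i)) {i₀ : Fin 3} (hi₀ : P.ord (z i₀) = 0) (hi₀0 : z i₀ ≠ 0) :
    ¬ ∀ i, Ge P 1 (MvPolynomial.aeval z (MvPolynomial.pderiv i C)) := by
  intro h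
  obtain ⟨M, hM⟩ := hN.2 i₀
  have h1 : Ideal.span (Set.range fun i => MvPolynomial.pderiv i C) ≤ JP P z hz 1 := by
    rw [Ideal.span_le]
    rintro _ ⟨i, rfl⟩
    exact h i
  have h2 : Ge P 1 (MvPolynomial.aeval z ((MvPolynomial.X i₀ : P3) ^ M)) := h1 hM
  rw [map_pow, MvPolynomial.aeval_X] at h2
  have h3 := ge_pow_cases (hz i₀) M h2
  have h4 := h3.resolve_left hi₀0
  omega

/-- the ideal of a subspace of positive forms -/
lemma ge_of_mem_IW {P : Place ℂ K} {z : Fin 3 → K} (hz : ∀ i, Ge P 0 (z i)) {C : P3}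
    (hC : C ∈ IW (WP P z)) : Ge P 1 (MvPolynomial.aeval z C) := by
  have h := ge_of_mem_pow hz (W := WP P z) (a := 1) (m := 1) (Q := C) (fun w hw => hw)
    (by rwa [pow_one])
  simpa using h

/-- reduction modulo the ideal of a point -/
lemma sub_mem_IW {W : Submodule ℂ V3} {v : V3} (hv : ∀ u : V3, ∃ c : ℂ, u - c • v ∈ W) {C : P3}
    {e : ℕ} (hC : C.IsHomogeneous e) :
    ∃ κ : ℂ, C - MvPolynomial.C κ * lin v ^ e ∈ IW W := by
  classical
  choose c hc using fun i : Fin 3 => hv (Pi.single i 1)
  have h1 : ∀ i, (Ideal.Quotient.mk (IW W)) (MvPolynomial.X i) =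
      (Ideal.Quotient.mk (IW W)) (MvPolynomial.C (c i) * lin v) := by
    intro i
    rw [Ideal.Quotient.eq]
    have h2 := lin_mem_IW (hc i)
    have h3 : lin (Pi.single i 1 - c i • v) = MvPolynomial.X i - MvPolynomial.C (c i) * lin v := by
      rw [sub_eq_add_neg, ← neg_smul, lin_add, lin_smul, lin_single, map_neg]
      ring
    rwa [h3] at h2
  refine ⟨MvPolynomial.aeval c C, ?_⟩
  rw [← Ideal.Quotient.eq]
  let φ : P3 →ₐ[ℂ] (P3 ⧸ IW W) := Ideal.Quotient.mkₐ ℂ (IW W)
  have h4 : ∀ p : P3, φ p = Ideal.Quotient.mk (IW W) p := fun p => rfl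
  have h5 : φ = MvPolynomial.aeval (fun i => algebraMap ℂ _ (c i) * φ (lin v)) := by
    apply MvPolynomial.algHom_ext
    intro i
    rw [MvPolynomial.aeval_X, h4, h1 i, ← h4, map_mul]
    congr 1
  rw [← h4 C, ← h4 (MvPolynomial.C _ * _), map_mul, map_pow]
  have h6 : φ (MvPolynomial.C (MvPolynomial.aeval c C)) = algebraMap ℂ _ (MvPolynomial.aeval c C) :=
    φ.commutes _
  rw [h6]
  conv_lhs => rw [h5]
  have h7 : ∀ p : P3, p.IsHomogeneous e →
      MvPolynomial.aeval (fun i => algebraMap ℂ (P3 ⧸ IW W) (c i) * φ (lin v)) p =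
        algebraMap ℂ _ (MvPolynomial.aeval c p) * φ (lin v) ^ e := by
    intro p hp
    rw [p.as_sum, map_sum, map_sum, map_sum, Finset.sum_mul]
    refine Finset.sum_congr rfl fun s hs => ?_
    rw [MvPolynomial.aeval_monomial, MvPolynomial.aeval_monomial]
    have hdeg : s.degree = e := by
      have := hp (MvPolynomial.mem_support_iff.1 hs)
      rw [← this]
      exact DFunLike.congr_fun Finsupp.degree_eq_weight_one s
    rw [Finsupp.prod_fintype _ _ (fun i => pow_zero _),
      Finsupp.prod_fintype _ _ (fun i => pow_zero _)]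
    simp only [mul_pow]
    rw [Finset.prod_mul_distrib, Finset.prod_pow_eq_pow_sum, map_mul, map_prod, ← hdeg,
      Finsupp.degree_eq_sum]
    simp only [map_pow]
    rw [mul_assoc]
    rfl
  exact h7 C hC

end Pool.Agent.J4H63.LC
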