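import Pool.Agent.J4H63.LC.RegA

/-!
# Regularity: the position of the place with respect to the curve
-/

set_option autoImplicit false

open FF

namespace Pool.Agent.J4H63.LC

open Pool.Agent.W602.GT Pool.Agent.W603.LV Pool.Agent.J4H13.LA Pool.Agent.J4H13.LC

variable {K : Type} [Field K] [Algebra ℂ K]

/-- At a place centered at a point, a positive homogeneous form is in the ideal of the point. -/
lemma mem_IW_of_ge {P : Place ℂ K} {z : Fin 3 → K} (hz : ∀ i, Ge P 0 (z i)) {v : V3}
    (hvW : v ∉ WP P z) (hv : ∀ u : V3, ∃ c : ℂ, u - c • v ∈ WP P z) {C : P3} {e : ℕ}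
    (hC : C.IsHomogeneous e) (hpos : Ge P 1 (MvPolynomial.aeval z C)) : C ∈ IW (WP P z) := by
  obtain ⟨κ, hκ⟩ := sub_mem_IW hv hC
  by_cases h0 : κ = 0
  · rw [h0, MvPolynomial.C_0, zero_mul, sub_zero] at hκ
    exact hκ
  · exfalso
    have h1 := ge_of_mem_IW hz hκ
    have h2 := hpos.sub h1
    rw [← map_sub, sub_sub_cancel, map_mul, map_pow, aeval_lin, MvPolynomial.algHom_C] at h2
    have h3 := (Ge.const (P := P) κ⁻¹).mul h2
    rw [← mul_assoc, ← map_mul, inv_mul_cancel₀ h0, map_one, one_mul, zero_add] at h3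
    exact hvW (ge_pow_cases (ev_reg hz v) e h3)

/-- a polynomial in `τ` of positive order -/
lemma exists_root {P : Place ℂ K} {τ : K} (hτ : Ge P 0 τ) {H : Polynomial ℂ} (hH : H ≠ 0)
    (h : Ge P 1 (Polynomial.aeval τ H)) : ∃ ρ : ℂ, Ge P 1 (τ - algebraMap ℂ K ρ) := by
  by_contra hcon
  push Not at hcon
  have h1 := (IsAlgClosed.splits H).eq_prod_roots
  rw [h1, map_mul, Polynomial.aeval_C] at h
  have hlc : H.leadingCoeff ≠ 0 := Polynomial.leadingCoeff_ne_zero.2 hH
  have h3 := (Ge.const (P := P) H.leadingCoeff⁻¹).mul h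
  rw [← mul_assoc, ← map_mul, inv_mul_cancel₀ hlc, map_one, one_mul, zero_add] at h3
  have h4 : ∀ s : Multiset ℂ, ¬ Ge P 1 (Polynomial.aeval τ
      (s.map fun a => Polynomial.X - Polynomial.C a).prod) ∧
      Ge P 0 (Polynomial.aeval τ (s.map fun a => Polynomial.X - Polynomial.C a).prod) := by
    intro s
    induction s using Multiset.induction_on with
    | empty =>
      rw [Multiset.map_zero, Multiset.prod_zero, map_one]
      exact ⟨not_ge_one_one P, Ge.one⟩
    | cons a s ih =>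
      rw [Multiset.map_cons, Multiset.prod_cons, map_mul, map_sub, Polynomial.aeval_X,
        Polynomial.aeval_C]
      have h5 : Ge P 0 (τ - algebraMap ℂ K a) := hτ.sub (Ge.const a)
      constructor
      · intro h6
        rcases ge_mul_cases h5 ih.2 h6 with h7 | h7
        · exact hcon a h7
        · exact ih.1 h7
      · exact (h5.mul ih.2).mono (by omega)
  exact (h4 _).1 h3

/-- a nonzero binary form has a nonzero dehomogenization -/
lemma dehom_ne_zero {G : MvPolynomial (Fin 2) ℂ} {e : ℕ} (hG : G.IsHomogeneous e) (hG0 : G ≠ 0) :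
    MvPolynomial.aeval ![1, Polynomial.X] G ≠ (0 : Polynomial ℂ) := by
  intro h
  apply hG0
  have h3 : MvPolynomial.X 0 * G = 0 := by
    apply MvPolynomial.funext
    intro p
    rw [map_mul, map_zero, MvPolynomial.eval_X]
    by_cases hp : p 0 = 0
    · rw [hp, zero_mul]
    · have h4 : MvPolynomial.aeval ![1, p 1 / p 0] G = (0 : ℂ) := by
        have h5 := MvPolynomial.comp_aeval_apply (R := ℂ)
          (![1, Polynomial.X] : Fin 2 → Polynomial ℂ)
          (Polynomial.aeval (p 1 / p 0) : Polynomial ℂ →ₐ[ℂ] ℂ) G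
        rw [h, map_zero] at h5
        rw [h5]
        congr 2
        funext i
        fin_cases i
        · change 1 = Polynomial.aeval (p 1 / p 0) (1 : Polynomial ℂ)
          rw [map_one]
        · change p 1 / p 0 = Polynomial.aeval (p 1 / p 0) (Polynomial.X : Polynomial ℂ)
          rw [Polynomial.aeval_X]
      have h7 := Pool.Agent.Helper397.HK.aeval_smul_of_homog hG (p 0) ![1, p 1 / p 0]
      rw [h4, mul_zero] at h7
      have h8 : (p 0 • ![1, p 1 / p 0]) = p := by
        funext i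
        fin_cases i
        · change p 0 * 1 = p 0
          rw [mul_one]
        · change p 0 * (p 1 / p 0) = p 1
          field_simp
      rw [h8] at h7
      have h9 : MvPolynomial.eval p G = 0 := h7
      rw [h9, mul_zero]
  exact (mul_eq_zero.1 h3).resolve_left (MvPolynomial.X_ne_zero 0)

/-- A place centered at the generic point of a line: the curve contains the line. -/
lemma dvd_of_line {P : Place ℂ K} {z : Fin 3 → K} (hz : ∀ i, Ge P 0 (z i))
    (hzne : ∀ w : V3, w ≠ 0 → ev z w ≠ 0) {b : Fin 3 → V3} (hb : LinearIndependent ℂ b)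
    (hb0 : P.ord (ev z (b 0)) = 0) (hb2 : b 2 ∈ WP P z)
    (hW : ∀ w ∈ WP P z, w ∈ Submodule.span ℂ {b 2}) {C : P3} {e : ℕ}
    (hC : C.IsHomogeneous e) (hpos : Ge P 1 (MvPolynomial.aeval z C)) : lin (b 2) ∣ C := by
  classical
  let B : Module.Basis (Fin 3) ℂ V3 := basisOfLinearIndependentOfCardEqFinrank hb (by simp)
  have hB : ∀ i, B i = b i := by
    intro i
    exact congrFun (coe_basisOfLinearIndependentOfCardEqFinrank hb _) i
  have hcoord : ∀ i : Fin 3, ∃ p q r : ℂ, Pi.single i 1 = p • b 0 + q • b 1 + r • b 2 := by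
    intro i
    refine ⟨B.repr (Pi.single i 1) 0, B.repr (Pi.single i 1) 1, B.repr (Pi.single i 1) 2, ?_⟩
    have h1 := B.sum_repr (Pi.single i 1)
    rw [Fin.sum_univ_three, hB, hB, hB] at h1
    exact h1.symm
  choose p q r hpqr using hcoord
  obtain ⟨G, hGdef⟩ : ∃ G : MvPolynomial (Fin 2) ℂ, G = MvPolynomial.aeval (fun i =>
    (MvPolynomial.C (p i) * MvPolynomial.X 0 + MvPolynomial.C (q i) * MvPolynomial.X 1 :
      MvPolynomial (Fin 2) ℂ)) C := ⟨_, rfl⟩
  have hGhom : G.IsHomogeneous e := by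
    rw [hGdef]
    have h1 := hC.aeval (fun i => (MvPolynomial.C (p i) * MvPolynomial.X 0 +
      MvPolynomial.C (q i) * MvPolynomial.X 1 : MvPolynomial (Fin 2) ℂ)) (n := 1) (fun i => by
        apply MvPolynomial.IsHomogeneous.add
        · have := (MvPolynomial.isHomogeneous_C (Fin 2) (p i)).mul
            (MvPolynomial.isHomogeneous_X ℂ (0 : Fin 2))
          simpa using this
        · have := (MvPolynomial.isHomogeneous_C (Fin 2) (q i)).mul
            (MvPolynomial.isHomogeneous_X ℂ (1 : Fin 2))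
          simpa using this)
    rwa [one_mul] at h1
  -- the curve modulo the line
  have hmod : MvPolynomial.aeval ![lin (b 0), lin (b 1)] G - C ∈ Ideal.span {lin (b 2)} := by
    rw [← Ideal.Quotient.eq]
    let φ : P3 →ₐ[ℂ] (P3 ⧸ Ideal.span {lin (b 2)}) := Ideal.Quotient.mkₐ ℂ _
    have h4 : ∀ p : P3, φ p = Ideal.Quotient.mk (Ideal.span {lin (b 2)}) p := fun p => rfl
    rw [← h4, ← h4, hGdef]
    have h5 := MvPolynomial.comp_aeval_apply (R := ℂ)
      (fun i => (MvPolynomial.C (p i) * MvPolynomial.X 0 + MvPolynomial.C (q i) *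
        MvPolynomial.X 1 : MvPolynomial (Fin 2) ℂ))
      (MvPolynomial.aeval ![lin (b 0), lin (b 1)] : MvPolynomial (Fin 2) ℂ →ₐ[ℂ] P3) C
    rw [h5]
    have h6 := MvPolynomial.comp_aeval_apply (R := ℂ)
      (fun i => MvPolynomial.aeval ![lin (b 0), lin (b 1)]
        (MvPolynomial.C (p i) * MvPolynomial.X 0 + MvPolynomial.C (q i) *
        MvPolynomial.X 1 : MvPolynomial (Fin 2) ℂ)) φ C
    rw [h6]
    have h7 : φ = MvPolynomial.aeval (fun i => φ (MvPolynomial.X i)) := by
      apply MvPolynomial.algHom_ext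
      intro i
      rw [MvPolynomial.aeval_X]
    conv_rhs => rw [h7]
    congr 2
    funext i
    rw [map_add, map_mul, map_mul, MvPolynomial.aeval_X, MvPolynomial.aeval_X,
      MvPolynomial.algHom_C, MvPolynomial.algHom_C, h4, h4, Ideal.Quotient.eq]
    have h8 : lin (Pi.single i 1) = MvPolynomial.C (p i) * lin (b 0) +
        MvPolynomial.C (q i) * lin (b 1) + MvPolynomial.C (r i) * lin (b 2) := by
      rw [hpqr i, lin_add, lin_add, lin_smul, lin_smul, lin_smul]
    rw [lin_single] at h8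
    rw [h8]
    have h9 : (algebraMap ℂ P3) (p i) * ![lin (b 0), lin (b 1)] 0 +
        (algebraMap ℂ P3) (q i) * ![lin (b 0), lin (b 1)] 1 -
        (MvPolynomial.C (p i) * lin (b 0) +
        MvPolynomial.C (q i) * lin (b 1) + MvPolynomial.C (r i) * lin (b 2)) =
        - MvPolynomial.C (r i) * lin (b 2) := by
      change MvPolynomial.C (p i) * lin (b 0) + MvPolynomial.C (q i) * lin (b 1) - _ = _
      ring
    rw [h9]
    exact Ideal.mul_mem_left _ _ (Ideal.mem_span_singleton_self _)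
  by_cases hG0 : G = 0
  · rw [hG0, map_zero, zero_sub] at hmod
    rw [Ideal.mem_span_singleton] at hmod
    exact (dvd_neg.1 hmod)
  · exfalso
    obtain ⟨T, hT⟩ := Ideal.mem_span_singleton.1 hmod
    have h1 : Ge P 1 (MvPolynomial.aeval ![ev z (b 0), ev z (b 1)] G) := by
      have h2 := MvPolynomial.comp_aeval_apply (R := ℂ) (![lin (b 0), lin (b 1)] : Fin 2 → P3)
        (MvPolynomial.aeval z : P3 →ₐ[ℂ] K) G
      have h3 : (fun i => MvPolynomial.aeval z ((![lin (b 0), lin (b 1)] : Fin 2 → P3) i)) =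
          ![ev z (b 0), ev z (b 1)] := by
        funext i
        fin_cases i
        · exact aeval_lin z (b 0)
        · exact aeval_lin z (b 1)
      rw [h3] at h2
      rw [← h2]
      have h4 : MvPolynomial.aeval ![lin (b 0), lin (b 1)] G = C + lin (b 2) * T := by
        rw [← hT]
        ring
      rw [h4, map_add, map_mul, aeval_lin]
      refine hpos.add ?_
      have h5 := (mem_WP.1 hb2).mul (ge_aeval hz T)
      exact h5.mono (by omega)
    obtain ⟨y₀, hy₀⟩ : ∃ y₀, y₀ = ev z (b 0) := ⟨_, rfl⟩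
    obtain ⟨y₁, hy₁⟩ : ∃ y₁, y₁ = ev z (b 1) := ⟨_, rfl⟩
    rw [← hy₀, ← hy₁] at h1
    rw [← hy₀] at hb0
    have hy₀0 : y₀ ≠ 0 := hy₀ ▸ hzne _ (hb.ne_zero 0)
    have hinv : Ge P 0 y₀⁻¹ := Or.inr (by rw [P.ord_inv, hb0, neg_zero])
    have hy₁reg : Ge P 0 y₁ := hy₁ ▸ ev_reg hz _
    have h2 : MvPolynomial.aeval ![y₀, y₁] G = y₀ ^ e * MvPolynomial.aeval ![1, y₁ * y₀⁻¹] G := by
      rw [← Pool.Agent.Helper397.HK.aeval_smul_of_homog hGhom]
      congr 2
      funext i
      fin_cases i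
      · change y₀ = y₀ * 1
        rw [mul_one]
      · change y₁ = y₀ * (y₁ * y₀⁻¹)
        field_simp
    have h3 : MvPolynomial.aeval ![1, y₁ * y₀⁻¹] G =
        Polynomial.aeval (y₁ * y₀⁻¹)
          (MvPolynomial.aeval (![1, Polynomial.X] : Fin 2 → Polynomial ℂ) G) := by
      have h5 := MvPolynomial.comp_aeval_apply (R := ℂ)
        (![1, Polynomial.X] : Fin 2 → Polynomial ℂ)
        (Polynomial.aeval (y₁ * y₀⁻¹) : Polynomial ℂ →ₐ[ℂ] K) G
      rw [h5]
      congr 2
      funext i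
      fin_cases i
      · change 1 = Polynomial.aeval (y₁ * y₀⁻¹) (1 : Polynomial ℂ)
        rw [map_one]
      · change y₁ * y₀⁻¹ = Polynomial.aeval (y₁ * y₀⁻¹) (Polynomial.X : Polynomial ℂ)
        rw [Polynomial.aeval_X]
    rw [h2, h3] at h1
    have h4 : Ge P 0 (y₀⁻¹ ^ e) := by
      have := hinv.pow e
      rwa [mul_zero] at this
    have h5 := h4.mul h1
    rw [← mul_assoc, ← mul_pow, inv_mul_cancel₀ hy₀0, one_pow, one_mul, zero_add] at h5
    obtain ⟨ρ, hρ⟩ := exists_root ((hy₁reg.mul hinv).mono (by omega))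
      (dehom_ne_zero hGhom hG0) h5
    have h6 : Ge P 1 (ev z (b 1 + (-ρ) • b 0)) := by
      rw [ev_add, ev_smul, ← hy₀, ← hy₁, map_neg]
      have h7 : Ge P 0 y₀ := Or.inr hb0.ge
      have h8 := h7.mul hρ
      have h9 : y₀ * (y₁ * y₀⁻¹ - algebraMap ℂ K ρ) = y₁ + -algebraMap ℂ K ρ * y₀ := by
        field_simp
        ring
      rw [h9, zero_add] at h8
      exact h8
    have h7 := hW _ (mem_WP.2 h6)
    obtain ⟨t, ht⟩ := Submodule.mem_span_singleton.1 h7
    have h8 := Fintype.linearIndependent_iff.1 hb ![-ρ, 1, -t] (by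
      rw [Fin.sum_univ_three]
      change (-ρ) • b 0 + (1 : ℂ) • b 1 + (-t) • b 2 = 0
      rw [neg_smul t, ht, one_smul]
      abel) 1
    exact one_ne_zero h8

end Pool.Agent.J4H63.LC
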