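import Pool.Agent.J4H63.LC.RegB

/-!
# Regularity: Cramer's rule and estimates
-/

set_option autoImplicit false

open FF

namespace Pool.Agent.J4H63.LC

open Pool.Agent.W602.GT Pool.Agent.W603.LV Pool.Agent.J4H13.LA Pool.Agent.J4H13.LC

variable {K : Type} [Field K] [Algebra ℂ K]

section cramer

variable (D₁ D₂ : Derivation ℂ K K) (y h : Fin 3 → K) (s e : K)

lemma cramer_two (hs : ∑ j, h j * y j = e * s) (h1 : ∑ j, h j * D₁ (y j) = D₁ s)
    (h2 : ∑ j, h j * D₂ (y j) = D₂ s) :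
    h 2 * Del D₁ D₂ y = Del D₁ D₂ ![y 0, y 1, s] + (e - 1) * s * wedge D₁ D₂ (y 0) (y 1) := by
  have e0 : (![y 0, y 1, s] : Fin 3 → K) 0 = y 0 := rfl
  have e1 : (![y 0, y 1, s] : Fin 3 → K) 1 = y 1 := rfl
  have e2 : (![y 0, y 1, s] : Fin 3 → K) 2 = s := rfl
  unfold Del wedge
  rw [e0, e1, e2, ← h1, ← h2]
  rw [Fin.sum_univ_three] at hs ⊢
  rw [Fin.sum_univ_three]
  linear_combination (D₁ (y 0) * D₂ (y 1) - D₂ (y 0) * D₁ (y 1)) * hs

lemma cramer_one (hs : ∑ j, h j * y j = e * s) (h1 : ∑ j, h j * D₁ (y j) = D₁ s)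
    (h2 : ∑ j, h j * D₂ (y j) = D₂ s) :
    h 1 * Del D₁ D₂ y = Del D₁ D₂ ![y 0, s, y 2] - (e - 1) * s * wedge D₁ D₂ (y 0) (y 2) := by
  have e0 : (![y 0, s, y 2] : Fin 3 → K) 0 = y 0 := rfl
  have e1 : (![y 0, s, y 2] : Fin 3 → K) 1 = s := rfl
  have e2 : (![y 0, s, y 2] : Fin 3 → K) 2 = y 2 := rfl
  unfold Del wedge
  rw [e0, e1, e2, ← h1, ← h2]
  rw [Fin.sum_univ_three] at hs ⊢
  rw [Fin.sum_univ_three]
  linear_combination (-(D₁ (y 0) * D₂ (y 2) - D₂ (y 0) * D₁ (y 2))) * hs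

lemma cramer_zero (hs : ∑ j, h j * y j = e * s) (h1 : ∑ j, h j * D₁ (y j) = D₁ s)
    (h2 : ∑ j, h j * D₂ (y j) = D₂ s) :
    h 0 * Del D₁ D₂ y = Del D₁ D₂ ![s, y 1, y 2] + (e - 1) * s * wedge D₁ D₂ (y 1) (y 2) := by
  have e0 : (![s, y 1, y 2] : Fin 3 → K) 0 = s := rfl
  have e1 : (![s, y 1, y 2] : Fin 3 → K) 1 = y 1 := rfl
  have e2 : (![s, y 1, y 2] : Fin 3 → K) 2 = y 2 := rfl
  unfold Del wedge
  rw [e0, e1, e2, ← h1, ← h2]
  rw [Fin.sum_univ_three] at hs ⊢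
  rw [Fin.sum_univ_three]
  linear_combination (D₁ (y 1) * D₂ (y 2) - D₂ (y 1) * D₁ (y 2)) * hs

end cramer

variable {P : Place ℂ K} {D₁ D₂ : Derivation ℂ K K}

lemma unit_of_not {a : K} (h0 : Ge P 0 a) (h1 : ¬ Ge P 1 a) : a ≠ 0 ∧ P.ord a = 0 := by
  have ha : a ≠ 0 := fun h => h1 (Or.inl h)
  refine ⟨ha, ?_⟩
  have h2 := h0.resolve_left ha
  by_contra hne
  exact h1 (Or.inr (by omega))

lemma ge_of_unit_mul {a f : K} {n : ℤ} (h0 : Ge P 0 a) (h1 : ¬ Ge P 1 a) (h : Ge P n (a * f)) :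
    Ge P n f := by
  obtain ⟨ha, ha'⟩ := unit_of_not h0 h1
  exact Ge.of_mul' ha ha' (by rwa [add_zero])

lemma ge_wedge_zero (h₁ : DerReg P D₁) (h₂ : DerReg P D₂) {u v : K} (hu : Ge P 0 u)
    (hv : Ge P 0 v) : Ge P 0 (wedge D₁ D₂ u v) := by
  unfold wedge
  have h3 := Ge.mul (show Ge P 0 _ from h₁ _ hu) (show Ge P 0 _ from h₂ _ hv)
  have h4 := Ge.mul (show Ge P 0 _ from h₂ _ hu) (show Ge P 0 _ from h₁ _ hv)
  exact (h3.mono (by omega)).sub (h4.mono (by omega))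

lemma ge_wedge_right (h₁ : DerReg P D₁) (h₂ : DerReg P D₂) {u v : K} {n : ℤ} (hu : Ge P 0 u)
    (hv : Ge P n v) : Ge P (n - 1) (wedge D₁ D₂ u v) := by
  unfold wedge
  have h3 := Ge.mul (show Ge P 0 _ from h₁ _ hu) (ge_D h₂ hv)
  have h4 := Ge.mul (show Ge P 0 _ from h₂ _ hu) (ge_D h₁ hv)
  exact (h3.mono (by omega)).sub (h4.mono (by omega))

lemma ge_wedge_left (h₁ : DerReg P D₁) (h₂ : DerReg P D₂) {u v : K} {n : ℤ} (hu : Ge P n u)
    (hv : Ge P 0 v) : Ge P (n - 1) (wedge D₁ D₂ u v) := by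
  have h3 := ge_wedge_right h₂ h₁ hv hu
  have h4 : wedge D₁ D₂ u v = wedge D₂ D₁ v u := by
    unfold wedge
    ring
  rw [h4]
  exact h3

/-- Cramer, no positive line -/
lemma ge_Del_unit (h₁ : DerReg P D₁) (h₂ : DerReg P D₂) {y h : Fin 3 → K} {s : K} {e : ℕ} {γ : ℤ}
    (hy : ∀ i, Ge P 0 (y i)) (hh : ∀ j, Ge P 0 (h j)) (hun : ¬ ∀ j, Ge P 1 (h j)) (hγ : 0 ≤ γ)
    (hsγ : Ge P γ s)
    (hs : ∑ j, h j * y j = (e : K) * s) (h1 : ∑ j, h j * D₁ (y j) = D₁ s)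
    (h2 : ∑ j, h j * D₂ (y j) = D₂ s) : Ge P (γ - 1) (Del D₁ D₂ y) := by
  have he : Ge P 0 ((e : K) - 1) := (Ge.natCast e).sub Ge.one
  have hw : ∀ i j, Ge P (γ - 1) (((e : K) - 1) * s * wedge D₁ D₂ (y i) (y j)) := by
    intro i j
    have := (he.mul hsγ).mul (ge_wedge_zero h₁ h₂ (hy i) (hy j))
    exact this.mono (by omega)
  have hR : ∀ i j, Ge P (γ - 1) (y i * wedge D₁ D₂ (y j) s) := by
    intro i j
    exact ((hy i).mul (ge_wedge_right h₁ h₂ (hy j) hsγ)).mono (by omega)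
  have hL : ∀ i j, Ge P (γ - 1) (y i * wedge D₁ D₂ s (y j)) := by
    intro i j
    exact ((hy i).mul (ge_wedge_left h₁ h₂ hsγ (hy j))).mono (by omega)
  have hS : ∀ i j, Ge P (γ - 1) (s * wedge D₁ D₂ (y i) (y j)) := by
    intro i j
    exact (hsγ.mul (ge_wedge_zero h₁ h₂ (hy i) (hy j))).mono (by omega)
  push Not at hun
  obtain ⟨j, hj⟩ := hun
  apply ge_of_unit_mul (hh j) hj
  fin_cases j
  · change Ge P (γ - 1) (h 0 * Del D₁ D₂ y)
    rw [cramer_zero D₁ D₂ y h s e hs h1 h2]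
    refine Ge.add ?_ (hw 1 2)
    change Ge P (γ - 1) (s * wedge D₁ D₂ (y 1) (y 2) - y 1 * wedge D₁ D₂ s (y 2) +
      y 2 * wedge D₁ D₂ s (y 1))
    exact ((hS 1 2).sub (hL 1 2)).add (hL 2 1)
  · change Ge P (γ - 1) (h 1 * Del D₁ D₂ y)
    rw [cramer_one D₁ D₂ y h s e hs h1 h2]
    refine Ge.sub ?_ (hw 0 2)
    change Ge P (γ - 1) (y 0 * wedge D₁ D₂ s (y 2) - s * wedge D₁ D₂ (y 0) (y 2) +
      y 2 * wedge D₁ D₂ (y 0) s)
    exact ((hL 0 2).sub (hS 0 2)).add (hR 2 0)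
  · change Ge P (γ - 1) (h 2 * Del D₁ D₂ y)
    rw [cramer_two D₁ D₂ y h s e hs h1 h2]
    refine Ge.add ?_ (hw 0 1)
    change Ge P (γ - 1) (y 0 * wedge D₁ D₂ (y 1) s - y 1 * wedge D₁ D₂ (y 0) s +
      s * wedge D₁ D₂ (y 0) (y 1))
    exact ((hR 0 1).sub (hR 1 0)).add (hS 0 1)

/-- Cramer, at a point of the curve -/
lemma ge_Del_point (h₁ : DerReg P D₁) (h₂ : DerReg P D₂) {y h : Fin 3 → K} {s : K} {e : ℕ}
    (hyne : ∀ i, y i ≠ 0) (hs0 : s ≠ 0) (hy0 : P.ord (y 0) = 0) (hy1 : 1 ≤ P.ord (y 1))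
    (hy12 : P.ord (y 1) ≤ P.ord (y 2)) (hh : ∀ j, Ge P 0 (h j)) (hun : ¬ ∀ j, Ge P 1 (h j))
    (hγ : 1 ≤ P.ord s) (hs : ∑ j, h j * y j = (e : K) * s)
    (h1 : ∑ j, h j * D₁ (y j) = D₁ s)
    (h2 : ∑ j, h j * D₂ (y j) = D₂ s) : Ge P (P.ord s + P.ord (y 1) - 1) (Del D₁ D₂ y) := by
  have he : Ge P 0 ((e : K) - 1) := (Ge.natCast e).sub Ge.one
  have g0 : Ge P 0 (y 0) := Or.inr hy0.ge
  have g1 : Ge P (P.ord (y 1)) (y 1) := Or.inr le_rfl
  have g2 : Ge P (P.ord (y 2)) (y 2) := Or.inr le_rfl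
  have gs : Ge P (P.ord s) s := Or.inr le_rfl
  -- the first coordinate of the gradient is positive
  have hh0 : Ge P 1 (h 0) := by
    have h3 : y 0 * h 0 = (e : K) * s - h 1 * y 1 - h 2 * y 2 := by
      rw [← hs, Fin.sum_univ_three]
      ring
    have h4 : Ge P (1 + 0) (y 0 * h 0) := by
      rw [h3, add_zero]
      refine Ge.sub (Ge.sub ?_ ?_) ?_
      · exact ((Ge.natCast e).mul gs).mono (by omega)
      · exact ((hh 1).mul g1).mono (by omega)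
      · exact ((hh 2).mul g2).mono (by omega)
    exact Ge.of_mul' (hyne 0) hy0 h4
  by_cases hc1 : Ge P 1 (h 1)
  · have hc2 : ¬ Ge P 1 (h 2) := by
      intro hc2
      apply hun
      intro j
      fin_cases j
      · exact hh0
      · exact hc1
      · exact hc2
    apply ge_of_unit_mul (hh 2) hc2
    rw [cramer_two D₁ D₂ y h s e hs h1 h2]
    refine Ge.add ?_ ?_
    · have h5 := ge_Del h₁ h₂ (z := ![y 0, y 1, s]) (by
        intro i
        fin_cases i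
        · exact hyne 0
        · exact hyne 1
        · exact hs0) hy0
      have h6 : P.ord ((![y 0, y 1, s] : Fin 3 → K) 1) + P.ord ((![y 0, y 1, s] : Fin 3 → K) 2) - 1 =
          P.ord s + P.ord (y 1) - 1 := by
        change P.ord (y 1) + P.ord s - 1 = _
        ring
      rw [h6] at h5
      exact h5
    · have h5 := (he.mul gs).mul (ge_wedge_right h₁ h₂ g0 g1)
      exact h5.mono (by omega)
  · apply ge_of_unit_mul (hh 1) hc1
    rw [cramer_one D₁ D₂ y h s e hs h1 h2]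
    refine Ge.sub ?_ ?_
    · have h5 := ge_Del h₁ h₂ (z := ![y 0, s, y 2]) (by
        intro i
        fin_cases i
        · exact hyne 0
        · exact hs0
        · exact hyne 2) hy0
      have h6 : P.ord ((![y 0, s, y 2] : Fin 3 → K) 1) + P.ord ((![y 0, s, y 2] : Fin 3 → K) 2) - 1 =
          P.ord s + P.ord (y 2) - 1 := rfl
      rw [h6] at h5
      exact h5.mono (by omega)
    · have h5 := (he.mul gs).mul (ge_wedge_right h₁ h₂ g0 g2)
      exact h5.mono (by omega)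

/-- change of coordinates -/
lemma ge_Del_of_basis {z : Fin 3 → K} {b : Fin 3 → V3} (hb : LinearIndependent ℂ b) {n : ℤ}
    (h : Ge P n (Del D₁ D₂ (fun j => ev z (b j)))) : Ge P n (Del D₁ D₂ z) := by
  rw [Del_basis] at h
  have hdet : Matrix.det (Matrix.of b) ≠ 0 := by
    have h5 : LinearIndependent ℂ (Matrix.of b).row := hb
    have h6 := Matrix.linearIndependent_rows_iff_isUnit.1 h5
    exact (Matrix.isUnit_iff_isUnit_det _).1 h6 |>.ne_zero
  have h7 := Ge.mul (Ge.const (P := P) (Matrix.det (Matrix.of b))⁻¹) h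
  rw [← mul_assoc, ← map_mul, inv_mul_cancel₀ hdet, map_one, one_mul, zero_add] at h7
  exact h7

/-- the order of the product of the lines -/
lemma sum_ord_le {z : Fin 3 → K} {b : Fin 3 → V3} (hbne : ev z (b 2) ≠ 0)
    (hab : P.ord (ev z (b 1)) ≤ P.ord (ev z (b 2)))
    (hmax : ∀ w ∈ WP P z, w ∉ Submodule.span ℂ {b 2} → P.ord (ev z w) ≤ P.ord (ev z (b 1)))
    {n : ℕ} {l : Fin n → V3} (hl0 : ∀ i, l i ≠ 0)
    (hl : ∀ i j, i ≠ j → LinearIndependent ℂ ![l i, l j]) :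
    ∑ i ∈ thr l (WP P z), P.ord (ev z (l i)) ≤
      (thr l (WP P z)).card * P.ord (ev z (b 1)) +
        (P.ord (ev z (b 2)) - P.ord (ev z (b 1))) := by
  classical
  obtain ⟨α, hα⟩ : ∃ α, α = P.ord (ev z (b 1)) := ⟨_, rfl⟩
  obtain ⟨β, hβ⟩ : ∃ β, β = P.ord (ev z (b 2)) := ⟨_, rfl⟩
  rw [← hα, ← hβ] at hab ⊢
  rw [← hα] at hmax
  have h6 : ∀ i ∈ thr l (WP P z), P.ord (ev z (l i)) ≤
      α + if l i ∈ Submodule.span ℂ {b 2} then β - α else 0 := by
    intro i hi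
    rw [mem_thr] at hi
    by_cases h7 : l i ∈ Submodule.span ℂ {b 2}
    · rw [if_pos h7]
      obtain ⟨t, ht⟩ := Submodule.mem_span_singleton.1 h7
      have ht0 : t ≠ 0 := by
        rintro rfl
        rw [zero_smul] at ht
        exact hl0 i ht.symm
      rw [← ht, ev_smul, P.ord_mul ((map_ne_zero _).2 ht0) hbne, P.ord_const ht0, ← hβ]
      omega
    · rw [if_neg h7]
      have := hmax _ hi h7
      omega
  have h8 : ((thr l (WP P z)).filter fun i => l i ∈ Submodule.span ℂ {b 2}).card ≤ 1 := by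
    rw [Finset.card_le_one]
    intro i hi j hj
    by_contra hij
    rw [Finset.mem_filter] at hi hj
    obtain ⟨s, hs⟩ := Submodule.mem_span_singleton.1 hi.2
    obtain ⟨t, ht⟩ := Submodule.mem_span_singleton.1 hj.2
    have h9 := LinearIndependent.pair_iff.1 (hl i j hij) t (-s) (by
      rw [← hs, ← ht, smul_smul, neg_smul, smul_smul, mul_comm t s, add_neg_cancel])
    apply hl0 j
    rw [← ht, h9.1, zero_smul]
  calc ∑ i ∈ thr l (WP P z), P.ord (ev z (l i)) ≤ ∑ i ∈ thr l (WP P z),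
        (α + if l i ∈ Submodule.span ℂ {b 2} then β - α else 0) := Finset.sum_le_sum h6
    _ = (thr l (WP P z)).card * α +
          ((thr l (WP P z)).filter fun i => l i ∈ Submodule.span ℂ {b 2}).card * (β - α) := by
        rw [Finset.sum_add_distrib, Finset.sum_const, ← Finset.sum_filter, Finset.sum_const]
        simp only [nsmul_eq_mul]
    _ ≤ (thr l (WP P z)).card * α + (β - α) := by
        have h9 : (((thr l (WP P z)).filter fun i =>
            l i ∈ Submodule.span ℂ {b 2}).card : ℤ) ≤ 1 := by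
          exact_mod_cast h8
        have h10 : 0 ≤ β - α := by omega
        nlinarith

end Pool.Agent.J4H63.LC
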